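import Pool.Agent.Lib.MP_33b3f9_ag.M8.FP.Two
import Pool.Agent.Lib.MP_33b3f9_ag.M8.GDefs

/-!
From fixed tensors to the irreducibility of the adjoint action on the commutant.
-/

set_option autoImplicit false

namespace M8.FP

open Matrix M4 M4.FP

variable {a b : MZ} {G : Subgroup (symplecticGroup (Fin 8) ℤ)} {I : Matrix ν ν ℝ} {κ : Type}
  [Fintype κ] [DecidableEq κ]

theorem em_mem (s : Mor a b ℂ) {g : Matrix ω ω ℂ} (hg : g ∈ symplecticGroup (Fin 4) ℂ) :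
    s.em g ∈ symplecticGroup (Fin 8) ℂ := by
  rw [SymplecticGroup.mem_iff'] at hg ⊢
  rw [← one_smul ℂ (J (Fin 8) ℂ)]
  conv_lhs => rw [one_smul]
  rw [s.sim_iff, one_smul, hg]

theorem gen_stable {χ : symplecticGroup (Fin 8) ℤ → ℤ} (hI : GEN a b I)
    (h : ∀ t ∈ Wsp κ ℂ G χ, ∀ p q : ℝ, (p, q) ≠ 0 → K κ (hm p q I) *ᵥ t ∈ Wsp κ ℂ G χ)
    (s : Mor a b ℂ) {g : Matrix ω ω ℂ} (hg : g ∈ symplecticGroup (Fin 4) ℂ) :
    ∀ t ∈ Wsp κ ℂ G χ, K κ (s.em g) *ᵥ t ∈ Wsp κ ℂ G χ := by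
  refine (gen_iff _).1 fun P hP => hI _ (SymplecticGroup.mem_iff'.1 (em_mem s hg)) (s.comm_a g)
    (s.comm_b g) P ?_
  refine ⟨_, ⟨⟨genStab κ _ G χ, Set.ext fun x => (gen_iff _).symm⟩, fun u v huv Q hQ => ?_⟩, hP⟩
  have h1 := (gen_iff (hm u v I)).2 (fun t ht => h t ht u v huv) Q hQ
  have h2 := gen_evalM Complex.ofRealHom (u • (1 : Matrix ν ν ℝ) + v • I) Q
  exact Complex.ofReal_eq_zero.1 (h2.symm.trans h1)

theorem tv_inv (w : ω → ℂ) (d : ℂ) : (1 + d • Nv w) * (1 + -d • Nv w) = 1 := by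
  simp [Matrix.add_mul, Matrix.mul_add, Nv_mul_Nv]

/-- The transvections of the eight dimensional factor fix a stable space of tensors that is killed
by a nonzero element of the Lie algebra. -/
theorem em_fix (s : Mor a b ℂ) (V : Submodule ℂ ((κ → ν) → ℂ))
    (hV : ∀ g ∈ symplecticGroup (Fin 4) ℂ, ∀ t ∈ V, K κ (s.em g) *ᵥ t ∈ V) {X : Matrix ω ω ℂ}
    (hs : InSp X) (h0 : X ≠ 0) (hX : ∀ t ∈ V, dK κ (s.em X) *ᵥ t = 0) (v : ω → ℚ) (c : ℚ) :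
    ∀ t ∈ V, K κ (s.em (1 + (c : ℂ) • Nv fun i => (v i : ℂ))) *ᵥ t = t := by
  let k : Submodule ℂ (Matrix ω ω ℂ) :=
    { carrier := {Y | ∀ t ∈ V, dK κ (s.em Y) *ᵥ t = 0}
      zero_mem' := fun t _ => by rw [map_zero, dK_zero, zero_mulVec]
      add_mem' := fun {Y Z} hY hZ t ht => by
        rw [map_add, dK_add, add_mulVec, hY t ht, hZ t ht, add_zero]
      smul_mem' := fun d Y hY t ht => by rw [map_smul, dK_smul, smul_mulVec, hY t ht, smul_zero] }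
  have hv : Nv (fun i => (v i : ℂ)) ∈ k := by
    refine irr k (fun w d Y hY t ht => ?_) hX hs h0 v
    rw [map_mul, map_mul, dK_conj (by rw [← map_mul, tv_inv, map_one]), ← mulVec_mulVec,
      ← mulVec_mulVec, hY _ (hV _ (tv_mem _ _) t ht), mulVec_zero]
  intro t ht
  have h := K_tv_fix (N := s.em (Nv fun i => (v i : ℂ)))
    (by rw [← map_mul, Nv_mul_Nv, map_zero]) (hv t ht) (c : ℝ)
  rwa [Complex.ofReal_ratCast, ← map_one s.em, ← map_smul, ← map_add] at h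

theorem cx_zr (g : MZ) : E3.cx (zr g) = zM ℂ g := by
  ext i j
  simp [E3.cx, zr]

theorem mem_gC {X : Matrix ν ν ℂ} : X ∈ E3.gC {zr a, zr b} ↔
    InSp X ∧ Commute (zM ℂ a) X ∧ Commute (zM ℂ b) X := by
  rw [← cx_zr, ← cx_zr]
  refine ⟨fun h => ⟨h.1, (h.2 _ (Or.inl rfl)).symm, (h.2 _ (Or.inr rfl)).symm⟩, fun h => ⟨h.1, ?_⟩⟩
  rintro x (rfl | rfl)
  exacts [h.2.1.symm, h.2.2.symm]

theorem pr_sp (s : Mor a b ℂ) {X : Matrix ν ν ℂ} (h : InSp X) (ha : Commute (zM ℂ a) X)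
    (hb : Commute (zM ℂ b) X) : InSp (s.pr X) := by
  rw [← s.em_pr ha hb] at h
  exact (s.sp_iff _).1 h

theorem irr_of_fix (s : Mor a b ℂ) (hI : GEN a b I) (hF : FixU G I)
    (hC : ∀ g ∈ G, Com a b g.1) : IRR a b G := by
  obtain ⟨hst, X, hs, h0, hX⟩ := hF
  have hc : ∀ x : MZ, (∀ g ∈ G, g.1 * x = x * g.1) → Commute (zM ℂ x) X := fun x hx =>
    hX.comm hs fun g hg => by
      have h := congrArg (fun y : MZ => y.map (Int.castRingHom ℂ)) (hx g hg)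
      simp only [Matrix.map_mul] at h
      exact h.symm
  have ha := hc a fun g hg => (hC g hg).1
  have hb := hc b fun g hg => (hC g hg).2
  have hA : ∀ (v : ω → ℚ) (c : ℚ),
      K (Fin 2) (s.em (1 + (c : ℂ) • Nv fun i => (v i : ℂ))) ∈ Aspan ℂ G := fun v c =>
    mem_Aspan fun m χ hχ => em_fix s _ (fun g hg => gen_stable hI (hst _ χ hχ) s hg)
      (pr_sp s hs ha hb) (fun h => h0 (by rw [← s.em_pr ha hb, h, map_zero]))
      (by rw [s.em_pr ha hb]; exact hX _ χ hχ) v c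
  refine ⟨hC, fun k hk hG => or_iff_not_imp_left.2 fun hne => le_antisymm hk fun Y hY => ?_⟩
  obtain ⟨Z, hZ, hZ0⟩ := (Submodule.ne_bot_iff k).1 hne
  obtain ⟨z1, z2, z3⟩ := mem_gC.1 (hk hZ)
  obtain ⟨y1, y2, y3⟩ := mem_gC.1 hY
  rw [← s.em_pr y2 y3]
  refine sp_mem (k.comap s.em.toLinearMap) (fun v => irr (k.comap s.em.toLinearMap)
    (fun w d U hU => ?_) (X := s.pr Z) ?_ (pr_sp s z1 z2 z3)
    (fun h => hZ0 (by rw [← s.em_pr z2 z3, h, map_zero])) v) (pr_sp s y1 y2 y3)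
  · change s.em _ ∈ k
    rw [map_mul, map_mul]
    refine conj_of_Aspan k (fun g hg V hV => ?_) (em_mem s (tv_mem _ _))
      (by rw [← map_mul, tv_inv, map_one]) (hA w d) _ hU
    have h := hG (cm ℝ g) ⟨g, hg, rfl⟩ (cm ℝ g⁻¹) (by rw [← cm_mul, mul_inv_cancel, cm_one]) V hV
    rwa [E3.cx, E3.cx, show ∀ x : symplecticGroup (Fin 8) ℤ,
      (cm ℝ x).map Complex.ofReal = cm ℂ x from cm_map Complex.ofRealHom,
      show ∀ x : symplecticGroup (Fin 8) ℤ,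
      (cm ℝ x).map Complex.ofReal = cm ℂ x from cm_map Complex.ofRealHom] at h
  · change s.em _ ∈ k
    rwa [s.em_pr z2 z3]

end M8.FP
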