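import Pool.Agent.Lib.MP_33b3f9_ag.M4.FP.Fix

/-!
The fixed part theorem with one element of the Lie algebra for all tensor spaces.
-/

set_option autoImplicit false

namespace M8.FP

open Matrix Filter Topology Metric M4 M4.FP

variable {ι : Type} [Fintype ι] [DecidableEq ι]

/-- The conclusion of the local computation, uniform in the tensor space. -/
def LocU (σ : ℂ → Matrix ι ι ℂ) (s : ℂ) : Prop :=
  ∃ X : Matrix (ι ⊕ ι) (ι ⊕ ι) ℂ, InSp X ∧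
    (X = 0 → ∀ (ω : ℂ) i j, HasDerivAt (fun r : ℝ => cst (σ (s + r * ω)) i j) 0 0) ∧
    ∀ (κ : Type) [Fintype κ] [DecidableEq κ] (t : (κ → ι ⊕ ι) → ℂ), t ≠ 0 → ∃ c : ℝ,
      Lap (fun z => Real.log (Nf κ (σ z) t)) s c ∧ (c = 0 → dK κ X *ᵥ t = 0)

theorem locU_I {σ : ℂ → Matrix ι ι ℂ} {s : ℂ} (hσ : ∀ i j, AnalyticAt ℂ (fun z => σ z i j) s)
    (hH : ∀ᶠ z in 𝓝 s, InH (σ z)) (h0 : σ s = Complex.I • (1 : Matrix ι ι ℂ)) : LocU σ s := by
  obtain ⟨ξ, M, M', hξ, hj⟩ := jet_Pm hσ hH h0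
  have hc : ∀ ω : ℂ, ∃ C, MJet (fun r : ℝ => -(J ι ℂ * (Pm (σ (s + r * ω))).map Complex.ofReal))
      (-J ι ℂ) (-(J ι ℂ * (ω • th ξ + star ω • (th ξ)ᴴ))) C := fun ω => by
    have h := ((MJet.const (J ι ℂ)).mul (hj ω)).neg
    rw [mul_one, zero_mul, add_zero] at h
    exact ⟨_, h⟩
  refine ⟨th ξ, ?_, fun hX ω i j => ?_, fun κ _ _ t ht => ?_⟩
  · rw [InSp, th_transpose hξ, th_mul_J, J_mul_th, neg_smul, add_neg_cancel]
  · obtain ⟨C, h⟩ := hc ω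
    have h1 := ((h i j).clm Complex.reCLM).hasDerivAt
    simp only [← loc_cst, hX] at h1
    simpa using h1
  · have hn : IsNilpotent (dK κ (th ξ)) := dK_nilp (th_mul_th ξ ξ)
    obtain ⟨h1, h2⟩ := cs_nilp hn ht
    have h3 := loc_pos ht
    refine ⟨_, loc_lap (fun z => K κ ((Pm (σ z)).map Complex.ofReal)) s (dK κ (th ξ)) (dK κ M)
      (dK κ M') ht fun ω => ?_, fun hc0 => ?_⟩
    · have h := (hj ω).K (κ := κ)
      simp only [dK_add, dK_smul, dK_conjTranspose] at h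
      exact h
    · rw [div_eq_zero_iff, or_iff_left (pow_ne_zero 2 h3.ne')] at hc0
      exact (h2 (by linarith)).1

theorem locU {σ : ℂ → Matrix ι ι ℂ} {U : Set ℂ} (hU : IsOpen U) (hσ : HolOn σ U)
    (hH : ∀ z ∈ U, InH (σ z)) {s : ℂ} (hs : s ∈ U) : LocU σ s := by
  obtain ⟨g, hg, h0⟩ := exists_act_I (hH s hs)
  let gi : Matrix (ι ⊕ ι) (ι ⊕ ι) ℝ := ((⟨g, hg⟩ : symplecticGroup ι ℝ)⁻¹ : symplecticGroup ι ℝ)
  have hgi : gi ∈ symplecticGroup ι ℝ := ((⟨g, hg⟩ : symplecticGroup ι ℝ)⁻¹).2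
  have e1 : gi * g = 1 := congrArg Subtype.val (inv_mul_cancel (⟨g, hg⟩ : symplecticGroup ι ℝ))
  have e2 : gi.map Complex.ofReal * g.map Complex.ofReal = 1 := by
    rw [← loc_map_mul, e1, loc_map_one]
  have e3 : g.map Complex.ofReal * gi.map Complex.ofReal = 1 := mul_eq_one_comm.1 e2
  have hUs := hU.mem_nhds hs
  have hev : ∀ ω : ℂ, ∀ᶠ r : ℝ in 𝓝 0, s + r * ω ∈ U := fun ω =>
    ((by fun_prop : Continuous fun r : ℝ => s + r * ω).tendsto' 0 s (by simp)).eventually hUs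
  obtain ⟨X, hX, h1, h2⟩ := locU_I (σ := fun z => act g (σ z)) (s := s)
    (fun i j => (holOn_act hg hσ hH i j).analyticAt hUs)
    (Filter.mem_of_superset hUs fun z hz => FP.inH_act hg (hH z hz)) h0
  refine ⟨gi.map Complex.ofReal * X * g.map Complex.ofReal, hX.conj (loc_mem hgi) e2,
    fun hX0 ω i j => ?_, fun κ _ _ t ht => ?_⟩
  · have hX1 : X = 0 := by
      have h := congrArg (fun Y => g.map Complex.ofReal * Y * gi.map Complex.ofReal) hX0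
      simp only [mul_zero, zero_mul, ← mul_assoc, e3, one_mul] at h
      rwa [mul_assoc, e3, mul_one] at h
    have h3 : HasDerivAt (fun r : ℝ => (gi * cst (act g (σ (s + r * ω))) * g) i j) 0 0 := by
      simp only [mul_apply]
      have h := HasDerivAt.fun_sum (u := Finset.univ) fun b _ =>
        (HasDerivAt.fun_sum (u := Finset.univ) fun a _ =>
          (h1 hX1 ω a b).const_mul (gi i a)).mul_const (g b j)
      simpa using h
    refine h3.congr_of_eventuallyEq ((hev ω).mono fun r hr => ?_)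
    simp only
    rw [mul_assoc, FP.cst_act hg (hH _ hr), ← mul_assoc, e1, one_mul]
  · have e4 : K κ (gi.map Complex.ofReal) *ᵥ (K κ (g.map Complex.ofReal) *ᵥ t) = t := by
      rw [mulVec_mulVec, ← K_mul, e2, K_one, one_mulVec]
    obtain ⟨c, h3, h4⟩ := h2 κ (K κ (g.map Complex.ofReal) *ᵥ t) fun h => ht (by
      rw [← e4, h, mulVec_zero])
    refine ⟨c, h3.congr (Filter.mem_of_superset hUs fun z hz => ?_), fun hc0 => ?_⟩
    · exact congrArg Real.log (Nf_act hg (hH z hz) t)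
    · rw [dK_conj e2, ← mulVec_mulVec, ← mulVec_mulVec, h4 hc0, mulVec_zero]

/-- `X` kills all tensors on which `G` acts through a sign. -/
def Kills (G : Subgroup (symplecticGroup ι ℤ)) (X : Matrix (ι ⊕ ι) (ι ⊕ ι) ℂ) : Prop :=
  ∀ (κ : Type) [Fintype κ] [DecidableEq κ] (χ : symplecticGroup ι ℤ → ℤ),
    (∀ g ∈ G, χ g = 1 ∨ χ g = -1) → ∀ t ∈ Wsp κ ℂ G χ, dK κ X *ᵥ t = 0

/-- What the analytic part gives. -/
def FixU (G : Subgroup (symplecticGroup ι ℤ)) (I : Matrix (ι ⊕ ι) (ι ⊕ ι) ℝ) : Prop :=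
  (∀ (κ : Type) [Fintype κ] [DecidableEq κ] (χ : symplecticGroup ι ℤ → ℤ),
    (∀ g ∈ G, χ g = 1 ∨ χ g = -1) → ∀ t ∈ Wsp κ ℂ G χ, ∀ p q : ℝ, (p, q) ≠ 0 →
      K κ (hm p q I) *ᵥ t ∈ Wsp κ ℂ G χ) ∧
    ∃ X : Matrix (ι ⊕ ι) (ι ⊕ ι) ℂ, InSp X ∧ X ≠ 0 ∧ Kills G X

theorem fix_lieU {G : Subgroup (symplecticGroup ι ℤ)} {Y : Set (ℂ × Matrix ι ι ℂ)} {n : ℕ}
    {B : Finset ℂ} (hS : Sheets G (↑B)ᶜ Y n) (hB : ∀ y ∈ Y, y.1 ∉ B) (hc : IsPreconnected Y)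
    (hne : ∃ y ∈ Y, ∃ y' ∈ Y, y.2 ≠ y'.2) :
    ∃ X : Matrix (ι ⊕ ι) (ι ⊕ ι) ℂ, InSp X ∧ X ≠ 0 ∧ Kills G X := by
  by_contra hcon
  obtain ⟨y, hy, y', hy', hne⟩ := hne
  refine hne (fix_glue hS hB hc id ?_ hy hy')
  intro w r I σ hsub hC i hi g _ z hz
  have key : cst (σ i z) = cst (σ i w) := by
    ext a b
    refine fix_ball (f := fun z => cst (σ i z) a b) (fun s hs ω => ?_) hz
    obtain ⟨X, hX, h0, h⟩ :=
      locU isOpen_ball (hC.hol i hi) (fun z hz => hS.inH _ (hC.mem i hi z hz)) hs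
    refine h0 ?_ ω a b
    by_contra hX0
    refine hcon ⟨X, hX, hX0, fun κ _ _ χ hχ t ht => ?_⟩
    by_cases ht0 : t = 0
    · rw [ht0, mulVec_zero]
    · obtain ⟨c, hc, h2⟩ := h κ t ht0
      exact h2 (hS.lap_zero hχ ht ht0 isOpen_ball hsub hC hs hi hc)
  have hw : w ∈ ball w r := mem_ball_self (pos_of_mem_ball hz)
  have e : σ i z = σ i w :=
    cst_inj (hS.inH _ (hC.mem i hi z hz)) (hS.inH _ (hC.mem i hi w hw)) key
  rw [e]

end M8.FP
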