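import Pool.Agent.Lib.MP_33b3f9_ag.M8.FP.Loc
import Pool.Agent.Lib.MP_33b3f9_ag.M4.FP.Alg

/-!
Tensors of degree two as matrices; the span of the tensor squares over the complex numbers.
-/

set_option autoImplicit false

namespace M8.FP

open Matrix M4 M4.FP

section two

variable {α R : Type} [CommRing R]

/-- A matrix as a tensor. -/
def tm : Matrix α α R →ₗ[R] (Fin 2 → α) → R where
  toFun S b := S (b 0) (b 1)
  map_add' _ _ := rfl
  map_smul' _ _ := rfl

theorem tm_apply (S : Matrix α α R) (b : Fin 2 → α) : tm S b = S (b 0) (b 1) := rfl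

theorem tm_inj : Function.Injective (tm : Matrix α α R → _) := fun _ _ h =>
  Matrix.ext fun i j => congrFun h ![i, j]

/-- A matrix as a function of pairs of indices. -/
def un : Matrix α α R →ₗ[R] α × α → R where
  toFun M p := M p.1 p.2
  map_add' _ _ := rfl
  map_smul' _ _ := rfl

theorem un_inj : Function.Injective (un : Matrix α α R → _) := fun _ _ h =>
  Matrix.ext fun i j => congrFun h (i, j)

variable [Fintype α] [DecidableEq α]

omit [DecidableEq α] in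
theorem Kf_tm (g : Fin 2 → Matrix α α R) (S : Matrix α α R) :
    Kf g *ᵥ tm S = tm (g 0 * S * (g 1)ᵀ) := by
  funext p
  rw [mulVec, dotProduct, ← (finTwoArrowEquiv α).symm.sum_comp, Fintype.sum_prod_type,
    Finset.sum_comm, tm_apply]
  simp only [Matrix.mul_apply, Finset.sum_mul, transpose_apply]
  refine Finset.sum_congr rfl fun a _ => Finset.sum_congr rfl fun b _ => ?_
  simp [Kf, Fin.prod_univ_two, tm_apply]
  ring

omit [DecidableEq α] in
theorem K_tm (g S : Matrix α α R) : K (Fin 2) g *ᵥ tm S = tm (g * S * gᵀ) := Kf_tm _ _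

theorem dK_tm (X S : Matrix α α R) : dK (Fin 2) X *ᵥ tm S = tm (X * S + S * Xᵀ) := by
  rw [dK, Fin.sum_univ_two, add_mulVec, phi, phi, Kf_tm, Kf_tm, map_add]
  simp

/-- Symmetric matrices are spanned by rational squares. -/
theorem sym_mem (k : Submodule ℂ (Matrix α α ℂ))
    (h : ∀ v : α → ℚ, vecMulVec (fun i => (v i : ℂ)) (fun i => (v i : ℂ)) ∈ k)
    {S : Matrix α α ℂ} (hS : Sᵀ = S) : S ∈ k := by
  have h1 : ∀ i j, single i j (1 : ℂ) + (single i j (1 : ℂ))ᵀ ∈ k := fun i j => by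
    have h2 := k.sub_mem (k.sub_mem (h (Pi.single i 1 + Pi.single j 1)) (h (Pi.single i 1)))
      (h (Pi.single j 1))
    convert h2 using 1
    ext p q
    simp only [Matrix.add_apply, Matrix.sub_apply, transpose_apply, vecMulVec_apply, single_apply,
      Pi.add_apply, Pi.single_apply, Rat.cast_add, apply_ite (Rat.cast : ℚ → ℂ), Rat.cast_one,
      Rat.cast_zero, ite_and, @eq_comm _ i, @eq_comm _ j]
    split_ifs <;> ring
  have h2 : S = ∑ i, ∑ j, S i j • single i j (1 : ℂ) := by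
    conv_lhs => rw [matrix_eq_sum_single S]
    simp only [smul_single, smul_eq_mul, mul_one]
  have h3 : (2 : ℂ) • S = ∑ i, ∑ j, S i j • (single i j (1 : ℂ) + (single i j (1 : ℂ))ᵀ) := by
    simp only [smul_add, Finset.sum_add_distrib, ← transpose_smul, ← transpose_sum, ← h2, hS,
      two_smul]
  rw [← k.smul_mem_iff (two_ne_zero (α := ℂ)), h3]
  exact sum_mem fun i _ => sum_mem fun j _ => k.smul_mem _ (h1 i j)

end two

variable {ι : Type} [Fintype ι] [DecidableEq ι] {G : Subgroup (symplecticGroup ι ℤ)}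

theorem mul_J_inj {X Y : Matrix (ι ⊕ ι) (ι ⊕ ι) ℂ} (h : X * J ι ℂ = Y * J ι ℂ) : X = Y := by
  have h1 := congrArg (· * J ι ℂ) h
  simpa only [Matrix.mul_assoc, J_squared, Matrix.mul_neg, Matrix.mul_one, neg_inj] using h1

theorem J_tr {X : Matrix (ι ⊕ ι) (ι ⊕ ι) ℂ} (h : InSp X) : J ι ℂ * Xᵀ = -(X * J ι ℂ) := by
  have h1 := congrArg (fun Y => J ι ℂ * Y * J ι ℂ) h
  simp only [Matrix.mul_add, Matrix.add_mul, Matrix.mul_zero, Matrix.zero_mul] at h1
  rw [Matrix.mul_assoc, Matrix.mul_assoc, J_squared, ← Matrix.mul_assoc _ _ X, J_squared,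
    Matrix.mul_neg, Matrix.mul_one, Matrix.mul_neg, Matrix.neg_mul, Matrix.one_mul,
    Matrix.neg_mul] at h1
  exact neg_add_eq_zero.1 h1

/-- The transvections span the symplectic Lie algebra. -/
theorem sp_mem (k : Submodule ℂ (Matrix (ι ⊕ ι) (ι ⊕ ι) ℂ))
    (h : ∀ v : ι ⊕ ι → ℚ, Nv (fun i => (v i : ℂ)) ∈ k) {Y : Matrix (ι ⊕ ι) (ι ⊕ ι) ℂ}
    (hY : InSp Y) : Y ∈ k := by
  have h1 : Y * J ι ℂ * J ι ℂ ∈ k := sym_mem (k.comap (LinearMap.mulRight ℂ (J ι ℂ))) h (by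
    rw [transpose_mul, J_transpose, Matrix.neg_mul, J_tr hY, neg_neg])
  rwa [Matrix.mul_assoc, J_squared, Matrix.mul_neg, Matrix.mul_one, k.neg_mem_iff] at h1

/-- An element that kills all invariant tensors commutes with the commutant. -/
theorem Kills.comm {X x : Matrix (ι ⊕ ι) (ι ⊕ ι) ℂ} (h : Kills G X) (hX : InSp X)
    (hx : ∀ g ∈ G, x * cm ℂ g = cm ℂ g * x) : x * X = X * x := by
  have h1 := h (Fin 2) (fun _ => 1) (fun _ _ => Or.inl rfl) (tm (x * J ι ℂ)) fun g hg => by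
    rw [K_tm, ← Matrix.mul_assoc, ← hx g hg, Matrix.mul_assoc x, Matrix.mul_assoc x,
      SymplecticGroup.mem_iff.1 (cm_mem ℂ g), Int.cast_one, one_smul]
  rw [dK_tm, Matrix.mul_assoc, J_tr hX, ← map_zero tm, tm_inj.eq_iff, Matrix.mul_neg,
    add_neg_eq_zero, ← Matrix.mul_assoc, ← Matrix.mul_assoc] at h1
  exact (mul_J_inj h1).symm

theorem K_tm_J {T T' : Matrix (ι ⊕ ι) (ι ⊕ ι) ℂ} (hT : T ∈ symplecticGroup ι ℂ) (e : T * T' = 1)
    (X : Matrix (ι ⊕ ι) (ι ⊕ ι) ℂ) :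
    K (Fin 2) T *ᵥ tm (X * J ι ℂ) = tm (T * X * T' * J ι ℂ) := by
  have h : J ι ℂ * Tᵀ = T' * J ι ℂ := by
    conv_rhs => rw [← SymplecticGroup.mem_iff.1 hT, ← Matrix.mul_assoc, ← Matrix.mul_assoc,
      mul_eq_one_comm.1 e, Matrix.one_mul]
  rw [K_tm, Matrix.mul_assoc, Matrix.mul_assoc, h]
  simp only [Matrix.mul_assoc]

/-- A space of matrices that is stable under `G` is stable under the span. -/
theorem conj_of_Aspan (k : Submodule ℂ (Matrix (ι ⊕ ι) (ι ⊕ ι) ℂ))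
    (hk : ∀ g ∈ G, ∀ X ∈ k, cm ℂ g * X * cm ℂ g⁻¹ ∈ k) {T T' : Matrix (ι ⊕ ι) (ι ⊕ ι) ℂ}
    (hT : T ∈ symplecticGroup ι ℂ) (e : T * T' = 1) (hA : K (Fin 2) T ∈ Aspan ℂ G) :
    ∀ X ∈ k, T * X * T' ∈ k := by
  have key : ∀ M ∈ Aspan ℂ G, ∀ X ∈ k,
      M *ᵥ tm (X * J ι ℂ) ∈ k.map (tm ∘ₗ LinearMap.mulRight ℂ (J ι ℂ)) := fun M hM X hX => by
    induction hM using Submodule.span_induction with
    | mem x hx =>
      obtain ⟨g, hg, rfl⟩ := hx
      refine ⟨_, hk g hg X hX, (K_tm_J (cm_mem ℂ g) ?_ X).symm⟩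
      rw [← cm_mul, mul_inv_cancel, cm_one]
    | zero =>
      rw [zero_mulVec]
      exact zero_mem _
    | add x y _ _ hx hy =>
      rw [add_mulVec]
      exact add_mem hx hy
    | smul c x _ hx =>
      rw [smul_mulVec]
      exact Submodule.smul_mem _ c hx
  intro X hX
  obtain ⟨Y, hY, h⟩ := key _ hA X hX
  rw [K_tm_J hT e] at h
  exact mul_J_inj (tm_inj h) ▸ hY

theorem map_mem_Aspan {x : Matrix (Fin 2 → ι ⊕ ι) (Fin 2 → ι ⊕ ι) ℚ} (hx : x ∈ Aspan ℚ G) :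
    x.map (algebraMap ℚ ℂ) ∈ Aspan ℂ G := by
  induction hx using Submodule.span_induction with
  | mem x hx =>
    obtain ⟨g, hg, rfl⟩ := hx
    beta_reduce
    rw [← gen_K]
    exact bas_mem ℂ hg
  | zero =>
    rw [Matrix.map_zero _ (map_zero _)]
    exact zero_mem _
  | add x y _ _ hx hy =>
    rw [Matrix.map_add _ (map_add _)]
    exact add_mem hx hy
  | smul c x _ hx =>
    have e : (c • x).map (algebraMap ℚ ℂ) = (c : ℂ) • x.map (algebraMap ℚ ℂ) := by
      ext i j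
      simp
    rw [e]
    exact Submodule.smul_mem _ _ hx

/-- A matrix that fixes all invariant tensors has its tensor square in the span. -/
theorem mem_Aspan {T : Matrix (ι ⊕ ι) (ι ⊕ ι) ℂ}
    (h : ∀ (m : ℕ) (χ : symplecticGroup ι ℤ → ℤ), (∀ g ∈ G, χ g = 1 ∨ χ g = -1) →
      ∀ t ∈ Wsp (Fin m × Fin 2) ℂ G χ, K (Fin m × Fin 2) T *ᵥ t = t) :
    K (Fin 2) T ∈ Aspan ℂ G := by
  obtain ⟨m, A, χ, hli, hsp, hχ, hplu⟩ := exists_basis G
  have h1 : LinearIndependent ℂ fun k => un ((A k).map (algebraMap ℚ ℂ)) :=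
    linearIndependent_algebraMap_comp_iff.2 (hli.map' un (LinearMap.ker_eq_bot.2 un_inj))
  have h2 : ∀ k, K (Fin 2) T * (A k).map (algebraMap ℚ ℂ) ∈ Aspan ℂ G := fun k => by
    have h3 := mem_span_of_minors (B := fun k => un (K (Fin 2) T * (A k).map (algebraMap ℚ ℂ))) h1
      (fun j => by
        have h3 := h m χ hχ _ ((Wsp_map ℂ).2 (hplu fun l => (j l).2))
        rw [← plu_map, K_plu] at h3
        exact congrFun h3 fun q => (j q.1).1 q.2) k
    have h4 : Submodule.span ℂ (Set.range fun k => un ((A k).map (algebraMap ℚ ℂ))) ≤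
        (Aspan ℂ G).map un := Submodule.span_le.2 (by
      rintro _ ⟨l, rfl⟩
      exact ⟨_, map_mem_Aspan (hsp ▸ Submodule.subset_span ⟨l, rfl⟩), rfl⟩)
    obtain ⟨y, hy, e⟩ := h4 h3
    exact un_inj e ▸ hy
  obtain ⟨c, hc⟩ := (Submodule.mem_span_range_iff_exists_fun ℚ).1 (hsp ▸ one_mem_Aspan (G := G) ℚ)
  have h3 : ∑ k, (c k : ℂ) • (A k).map (algebraMap ℚ ℂ) = 1 := by
    rw [← Matrix.map_one (algebraMap ℚ ℂ) (map_zero _) (map_one _), ← hc]
    ext i j
    simp [Matrix.sum_apply]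
  rw [← Matrix.mul_one (K (Fin 2) T), ← h3, Matrix.mul_sum]
  exact sum_mem fun k _ => by
    rw [Matrix.mul_smul]
    exact Submodule.smul_mem _ _ (h2 k)

end M8.FP
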